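import Mathlib

/-!
# Polarisation, real valued (the same as T9h89/GF/{Pol,EndA}.lean). Author: helper89.
-/

set_option autoImplicit false

namespace Pool.Agent.T9h89.QD

open Finset

section A

variable {V : Type} [AddCommGroup V]

/-- iterated differences. -/
def dr (f : V → ℝ) : List V → V → ℝ
  | [], x => f x
  | (a :: L), x => dr f L (x + a) - dr f L x

/-- iterated differences of a function of two variables along pairs. -/
def dr2 (f : V → V → ℝ) : List (V × V) → V → V → ℝ
  | [], x, y => f x y
  | (p :: L), x, y => dr2 f L (x + p.1) (y + p.2) - dr2 f L x y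

theorem dr_cons (f : V → ℝ) (a : V) (L : List V) (x : V) :
    dr f (a :: L) x = dr f L (x + a) - dr f L x := rfl

theorem dr2_cons (f : V → V → ℝ) (p : V × V) (L : List (V × V)) (x y : V) :
    dr2 f (p :: L) x y = dr2 f L (x + p.1) (y + p.2) - dr2 f L x y := rfl

theorem dr_cons' (f : V → ℝ) (a : V) (L : List V) (x : V) :
    dr f (a :: L) x = dr (fun w => f (w + a) - f w) L x := by
  induction L generalizing x with
  | nil => rfl
  | cons b L ih =>
    rw [dr_cons _ a, dr_cons _ b, dr_cons _ b, dr_cons _ b, ← ih, ← ih, dr_cons, dr_cons,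
      add_right_comm x a b]
    ring

theorem dr_sum {ι : Type} (s : Finset ι) (f : ι → V → ℝ) (L : List V) (x : V) :
    dr (fun w => ∑ i ∈ s, f i w) L x = ∑ i ∈ s, dr (f i) L x := by
  induction L generalizing x with
  | nil => rfl
  | cons b L ih => simp only [dr_cons, ih, Finset.sum_sub_distrib]

theorem dr2_sum {ι : Type} (s : Finset ι) (f : ι → V → V → ℝ) (L : List (V × V)) (x y : V) :
    dr2 (fun w v => ∑ i ∈ s, f i w v) L x y = ∑ i ∈ s, dr2 (f i) L x y := by
  induction L generalizing x y with
  | nil => rfl
  | cons b L ih => simp only [dr2_cons, ih, Finset.sum_sub_distrib]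

theorem dr_add (f g : V → ℝ) (L : List V) (x : V) :
    dr (fun w => f w + g w) L x = dr f L x + dr g L x := by
  induction L generalizing x with
  | nil => rfl
  | cons b L ih => simp only [dr_cons, ih]; ring

theorem dr_mul (c : ℝ) (f : V → ℝ) (L : List V) (x : V) :
    dr (fun w => c * f w) L x = c * dr f L x := by
  induction L generalizing x with
  | nil => rfl
  | cons b L ih => simp only [dr_cons, ih]; ring

theorem dr_zero (L : List V) (x : V) : dr (fun _ => (0 : ℝ)) L x = 0 := by
  induction L generalizing x with
  | nil => rfl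
  | cons a L ih => rw [dr_cons, ih, ih, sub_zero]

theorem dr_perm (f : V → ℝ) {L L' : List V} (h : L.Perm L') : ∀ x, dr f L x = dr f L' x := by
  induction h with
  | nil => intro x; rfl
  | cons a _ ih => intro x; rw [dr_cons, dr_cons, ih, ih]
  | swap a b L => intro x; simp only [dr_cons]; rw [add_right_comm]; ring
  | trans _ _ ih1 ih2 => intro x; rw [ih1, ih2]

/-- the polarisation -/
def SM (f : V → ℝ) (M : Multiset V) : ℝ :=
  Quot.liftOn M (fun L => dr f L 0) (fun _ _ h => dr_perm f h 0)

theorem SM_coe (f : V → ℝ) (L : List V) : SM f (L : Multiset V) = dr f L 0 := rfl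

/-- vanishing on a cube -/
theorem dr2_cube {T : Type} (z : T → V × V) (f : V → V → ℝ) (L : List T) (x y : V)
    (h : ∀ ε : Fin L.length → Bool, f (x + ∑ i, if ε i then (z (L.get i)).1 else 0)
      (y + ∑ i, if ε i then (z (L.get i)).2 else 0) = 0) : dr2 f (L.map z) x y = 0 := by
  induction L generalizing x y with
  | nil =>
    have := h (fun _ => true)
    simpa [dr2] using this
  | cons p L ih =>
    have h2 : ∀ (δ : Fin (L.length + 1) → Bool) (F : Fin (L.length + 1) → V),
        (∑ i : Fin (L.length + 1), if δ i then F i else 0) = (if δ 0 then F 0 else 0) +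
          ∑ i : Fin L.length, if δ i.succ then F i.succ else 0 := fun δ F => Fin.sum_univ_succ _
    have h3 : ∀ δ : Fin (L.length + 1) → Bool,
        f (x + ∑ i : Fin (L.length + 1), if δ i then (z ((p :: L).get i)).1 else 0)
        (y + ∑ i : Fin (L.length + 1), if δ i then (z ((p :: L).get i)).2 else 0) = 0 := h
    rw [List.map_cons, dr2_cons, ih, ih, sub_zero]
    · intro ε
      have h1 := h3 (Fin.cons (α := fun _ => Bool) false ε)
      rw [h2, h2] at h1
      simpa using h1
    · intro ε
      have h1 := h3 (Fin.cons (α := fun _ => Bool) true ε)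
      rw [h2, h2, ← add_assoc, ← add_assoc] at h1
      simpa using h1

theorem dr_cube {T : Type} (z : T → V) (f : V → ℝ) (L : List T) (x : V)
    (h : ∀ ε : Fin L.length → Bool, f (x + ∑ i, if ε i then z (L.get i) else 0) = 0) :
    dr f (L.map z) x = 0 := by
  induction L generalizing x with
  | nil =>
    have := h (fun _ => true)
    simpa [dr] using this
  | cons p L ih =>
    have h2 : ∀ (δ : Fin (L.length + 1) → Bool) (F : Fin (L.length + 1) → V),
        (∑ i : Fin (L.length + 1), if δ i then F i else 0) = (if δ 0 then F 0 else 0) +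
          ∑ i : Fin L.length, if δ i.succ then F i.succ else 0 := fun δ F => Fin.sum_univ_succ _
    have h3 : ∀ δ : Fin (L.length + 1) → Bool,
        f (x + ∑ i : Fin (L.length + 1), if δ i then z ((p :: L).get i) else 0) = 0 := h
    rw [List.map_cons, dr_cons, ih, ih, sub_zero]
    · intro ε
      have h1 := h3 (Fin.cons (α := fun _ => Bool) false ε)
      rw [h2] at h1
      simpa using h1
    · intro ε
      have h1 := h3 (Fin.cons (α := fun _ => Bool) true ε)
      rw [h2, ← add_assoc] at h1
      simpa using h1

theorem sum_eraseIdx {α : Type} [DecidableEq α] (L : List α) (G : α → Multiset α → ℝ) :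
    ∑ i : Fin L.length, G (L.get i) (↑(L.eraseIdx i)) =
      ((L : Multiset α).map (fun p => G p ((L : Multiset α).erase p))).sum := by
  have h1 : ∀ i : Fin L.length, G (L.get i) (↑(L.eraseIdx i)) =
      (fun p => G p ((L : Multiset α).erase p)) (L[i.1]) := by
    intro i
    have h2 : (L : Multiset α) = L[i.1] ::ₘ (↑(L.eraseIdx i) : Multiset α) := by
      rw [Multiset.cons_coe, Multiset.coe_eq_coe]
      exact (List.getElem_cons_eraseIdx_perm i.2).symm
    dsimp only
    have h3 : (L : Multiset α).erase L[i.1] = (↑(L.eraseIdx i) : Multiset α) := by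
      rw [h2]
      exact Multiset.erase_cons_head _ _
    rw [h3]
    rfl
  rw [Finset.sum_congr rfl fun i _ => h1 i,
    Fin.sum_univ_fun_getElem L (fun p => G p ((L : Multiset α).erase p)), Multiset.map_coe,
    Multiset.sum_coe]

end A

section B

variable {V : Type} [AddCommGroup V] [Module ℝ V]

/-- the diagonal -/
def dg {n : ℕ} (Q : MultilinearMap ℝ (fun _ : Fin n => V) ℝ) (w : V) : ℝ := Q (fun _ => w)

theorem dg_diff {n : ℕ} (Q : MultilinearMap ℝ (fun _ : Fin n => V) ℝ) (w a : V) :
    dg Q (w + a) - dg Q w = ∑ s ∈ (univ : Finset (Finset (Fin n))).erase univ,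
      Q (s.piecewise (fun _ => w) (fun _ => a)) := by
  classical
  have h2 : Q (fun _ => w + a) = ∑ s : Finset (Fin n),
      Q (s.piecewise (fun _ => w) (fun _ => a)) :=
    Q.map_add_univ (fun _ => w) (fun _ => a)
  unfold dg
  rw [h2, ← Finset.add_sum_erase _ _ (Finset.mem_univ (univ : Finset (Fin n)))]
  have h3 : (univ : Finset (Fin n)).piecewise (fun _ => w) (fun _ => a) =
      fun _ : Fin n => w := by
    funext j; simp
  rw [h3, add_sub_cancel_left]

theorem card_lt {n : ℕ} {s : Finset (Fin n)}
    (hs : s ∈ (univ : Finset (Finset (Fin n))).erase univ) : s.card < n := by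
  have h4 : s ⊂ univ := Finset.ssubset_univ_iff.2 (Finset.mem_erase.1 hs).1
  have := Finset.card_lt_card h4
  rwa [Finset.card_univ, Fintype.card_fin] at this

/-- differences of more than `n` increments of the diagonal of an `n`-linear map vanish -/
theorem dr_diag (n : ℕ) : ∀ (Q : MultilinearMap ℝ (fun _ : Fin n => V) ℝ) (L : List V) (x : V),
    n < L.length → dr (dg Q) L x = 0 := by
  classical
  induction n using Nat.strong_induction_on with
  | _ n ih =>
    intro Q L x hL
    cases L with
    | nil => simp at hL
    | cons a L =>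
      rw [List.length_cons] at hL
      rw [dr_cons', show (fun w => dg Q (w + a) - dg Q w) = fun w =>
        ∑ s ∈ (univ : Finset (Finset (Fin n))).erase univ,
          Q (s.piecewise (fun _ => w) (fun _ => a)) from funext fun w => dg_diff Q w a, dr_sum]
      refine Finset.sum_eq_zero fun s hs => ?_
      exact ih s.card (card_lt hs) (Q.restr s rfl a) L x (by have := card_lt hs; omega)

/-- homogeneity -/
theorem dr_homog {m : ℕ} (Q : MultilinearMap ℝ (fun _ : Fin (m + 1) => V) ℝ) (L : List V)
    (hL : L.length = m) (c : ℝ) (a x : V) :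
    dr (dg Q) ((c • a) :: L) x = c * dr (dg Q) (a :: L) x := by
  classical
  rw [dr_cons', dr_cons', show (fun w => dg Q (w + c • a) - dg Q w) = fun w =>
      ∑ s ∈ (univ : Finset (Finset (Fin (m + 1)))).erase univ,
        Q (s.piecewise (fun _ => w) (fun _ => c • a)) from funext fun w => dg_diff Q w _,
    show (fun w => dg Q (w + a) - dg Q w) = fun w =>
      ∑ s ∈ (univ : Finset (Finset (Fin (m + 1)))).erase univ,
        Q (s.piecewise (fun _ => w) (fun _ => a)) from funext fun w => dg_diff Q w a,
    dr_sum, dr_sum, Finset.mul_sum]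
  refine Finset.sum_congr rfl fun s hs => ?_
  have hs' := card_lt hs
  by_cases h : s.card = m
  · rw [← dr_mul]
    congr 1
    funext w
    have h1 := Q.map_piecewise_smul (fun _ => c) (s.piecewise (fun _ => w) (fun _ => a)) sᶜ
    have h2 : sᶜ.piecewise (fun i => c • s.piecewise (fun _ => w) (fun _ => a) i)
        (s.piecewise (fun _ => w) (fun _ => a)) =
        s.piecewise (fun _ : Fin (m + 1) => w) (fun _ => c • a) := by
      funext i
      by_cases hi : i ∈ s
      · simp [hi]
      · simp [hi]
    rw [h2, Finset.prod_const, Finset.card_compl, Fintype.card_fin, h,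
      Nat.add_sub_cancel_left, pow_one, smul_eq_mul] at h1
    exact h1
  · have h1 : ∀ b : V, dr (fun w => Q (s.piecewise (fun _ => w) (fun _ => b))) L x = 0 := fun b =>
      dr_diag s.card (Q.restr s rfl b) L x (by omega)
    rw [h1, h1, mul_zero]

/-- the `n`-fold difference of the diagonal of an `n`-linear map -/
theorem dr_fact (n : ℕ) : ∀ (Q : MultilinearMap ℝ (fun _ : Fin n => V) ℝ) (a x : V),
    dr (dg Q) (List.replicate n a) x = (n.factorial : ℝ) * Q (fun _ => a) := by
  classical
  induction n with
  | zero =>
    intro Q a x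
    show Q (fun _ => x) = _
    rw [Nat.factorial_zero, Nat.cast_one, one_mul]
    congr 1
    funext i; exact i.elim0
  | succ n ih =>
    intro Q a x
    rw [List.replicate_succ, dr_cons', show (fun w => dg Q (w + a) - dg Q w) = fun w =>
      ∑ s ∈ (univ : Finset (Finset (Fin (n + 1)))).erase univ,
        Q (s.piecewise (fun _ => w) (fun _ => a)) from funext fun w => dg_diff Q w a, dr_sum]
    have h4 : ∀ s ∈ (univ : Finset (Finset (Fin (n + 1)))).erase univ,
        dr (fun w => Q (s.piecewise (fun _ => w) (fun _ => a))) (List.replicate n a) x =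
          if s.card = n then (n.factorial : ℝ) * Q (fun _ => a) else 0 := by
      intro s hs
      have hs' := card_lt hs
      split_ifs with h
      · have h5 := ih (Q.restr s h a) a x
        have h6 : (Q.restr s h a) (fun _ => a) = Q (fun _ => a) := by
          show Q (fun j => if h : j ∈ s then a else a) = _
          congr 1
          funext j; split_ifs <;> rfl
        rw [h6] at h5
        exact h5
      · exact dr_diag s.card (Q.restr s rfl a) (List.replicate n a) x (by
          rw [List.length_replicate]; omega)
    rw [Finset.sum_congr rfl h4, ← Finset.sum_filter, Finset.sum_const]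
    have h5 : (((univ : Finset (Finset (Fin (n + 1)))).erase univ).filter
        (fun s => s.card = n)).card = n + 1 := by
      have h6 : ((univ : Finset (Finset (Fin (n + 1)))).erase univ).filter
          (fun s => s.card = n) = (univ : Finset (Fin (n + 1))).powersetCard n := by
        ext s
        simp only [mem_filter, mem_erase, mem_univ, and_true, mem_powersetCard, subset_univ,
          true_and, and_iff_right_iff_imp]
        rintro h rfl
        rw [Finset.card_univ, Fintype.card_fin] at h
        omega
      rw [h6, card_powersetCard, Finset.card_univ, Fintype.card_fin, Nat.choose_succ_self_right]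
    rw [h5, nsmul_eq_mul, Nat.factorial_succ]
    push_cast
    ring

/-- the polarisation as a linear form in one of the arguments -/
def SL {m : ℕ} (Q : MultilinearMap ℝ (fun _ : Fin (m + 1) => V) ℝ) (M : Multiset V)
    (hM : M.card = m) : V →ₗ[ℝ] ℝ where
  toFun a := SM (dg Q) (a ::ₘ M)
  map_add' a b := by
    induction M using Quot.inductionOn with
    | _ L =>
      have h1 := dr_diag (m + 1) Q (a :: b :: L) 0 (by
        have : L.length = m := hM
        simp [this])
      show dr (dg Q) ((a + b) :: L) 0 = dr (dg Q) (a :: L) 0 + dr (dg Q) (b :: L) 0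
      simp only [dr_cons, zero_add] at h1 ⊢
      linarith
  map_smul' c a := by
    induction M using Quot.inductionOn with
    | _ L => exact dr_homog Q L hM c a 0

/-- from generators to all vectors -/
theorem all_zero {Z : Type} (e : Z → V) (W : Set V)
    (hW : ∀ φ : V →ₗ[ℝ] ℝ, (∀ z, φ (e z) = 0) → ∀ w ∈ W, φ w = 0) {n : ℕ}
    (Q : MultilinearMap ℝ (fun _ : Fin n => V) ℝ)
    (h : ∀ M : Multiset Z, M.card = n → SM (dg Q) (M.map e) = 0) (w : V) (hw : w ∈ W) :
    Q (fun _ => w) = 0 := by
  have h1 : ∀ (A : Multiset V) (M : Multiset Z), (∀ a ∈ A, a ∈ W) → A.card + M.card = n →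
      SM (dg Q) (A + M.map e) = 0 := by
    intro A
    induction A using Multiset.induction_on with
    | empty => intro M _ hM; rw [zero_add]; exact h M (by simpa using hM)
    | cons a A ih =>
      intro M hA hM
      rw [Multiset.card_cons] at hM
      obtain ⟨m, rfl⟩ : ∃ m, n = m + 1 := ⟨A.card + M.card, by omega⟩
      have hc : (A + M.map e).card = m := by
        rw [Multiset.card_add, Multiset.card_map]; omega
      have h2 := hW (SL Q _ hc) (by
        intro z
        have h3 := ih (z ::ₘ M) (fun b hb => hA b (Multiset.mem_cons_of_mem hb))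
          (by rw [Multiset.card_cons]; omega)
        rwa [Multiset.map_cons, Multiset.add_cons] at h3) a (hA a (Multiset.mem_cons_self a A))
      rw [Multiset.cons_add]
      exact h2
  have h3 := h1 (↑(List.replicate n w)) 0 (by
    intro a ha
    rw [Multiset.mem_coe] at ha
    rw [List.eq_of_mem_replicate ha]
    exact hw) (by simp)
  rw [Multiset.map_zero, add_zero, SM_coe, dr_fact] at h3
  exact (mul_eq_zero.1 h3).resolve_left (by exact_mod_cast n.factorial_ne_zero)

/-- fix the last argument -/
def la {n : ℕ} (Q : MultilinearMap ℝ (fun _ : Fin n => V) (V →ₗ[ℝ] ℝ)) (b : V) :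
    MultilinearMap ℝ (fun _ : Fin n => V) ℝ :=
  (LinearMap.applyₗ b).compMultilinearMap Q

theorem dg_la {n : ℕ} (Q : MultilinearMap ℝ (fun _ : Fin n => V) (V →ₗ[ℝ] ℝ)) (b w : V) :
    dg (la Q b) w = Q (fun _ => w) b := rfl

/-- the general expansion -/
theorem dr2_expand (f : V → V →ₗ[ℝ] ℝ) (L : List (V × V)) (x y : V) :
    dr2 (fun w v => f w v) L x y = dr (fun w => f w y) (L.map Prod.fst) x +
      ∑ i : Fin L.length,
        dr (fun w => f w (L.get i).2) ((L.eraseIdx i).map Prod.fst) (x + (L.get i).1) := by
  induction L generalizing x y with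
  | nil => simp [dr2, dr]
  | cons p L ih =>
    rw [dr2_cons, ih, ih]
    have h1 : (fun w => f w (y + p.2)) = fun w => f w y + f w p.2 := by
      funext w; rw [map_add]
    rw [h1, dr_add]
    have h2 : ∑ i : Fin (p :: L).length, dr (fun w => f w ((p :: L).get i).2)
        (((p :: L).eraseIdx i).map Prod.fst) (x + ((p :: L).get i).1) =
        dr (fun w => f w p.2) (L.map Prod.fst) (x + p.1) +
        ∑ i : Fin L.length, (dr (fun w => f w (L.get i).2) ((L.eraseIdx i).map Prod.fst)
          (x + (L.get i).1 + p.1) -
          dr (fun w => f w (L.get i).2) ((L.eraseIdx i).map Prod.fst) (x + (L.get i).1)) := by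
      exact Fin.sum_univ_succ (n := L.length) (fun i : Fin (L.length + 1) =>
        dr (fun w => f w ((p :: L).get i).2)
        (((p :: L).eraseIdx i).map Prod.fst) (x + ((p :: L).get i).1))
    rw [h2, Finset.sum_sub_distrib, List.map_cons, dr_cons]
    have h3 : ∀ i : Fin L.length, x + (L.get i).1 + p.1 = x + p.1 + (L.get i).1 :=
      fun i => add_right_comm _ _ _
    simp only [h3]
    ring

/-- high differences vanish -/
theorem dr2_high {n : ℕ} (Q : MultilinearMap ℝ (fun _ : Fin n => V) (V →ₗ[ℝ] ℝ))
    (L : List (V × V)) (x y : V) (hL : n + 1 < L.length) :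
    dr2 (fun w v => Q (fun _ => w) v) L x y = 0 := by
  have h0 : ∀ (b : V) (L' : List V) (x : V), n < L'.length →
      dr (fun w => Q (fun _ => w) b) L' x = 0 := fun b L' x hL' =>
    dr_diag n (la Q b) L' x hL'
  rw [dr2_expand (fun w => Q (fun _ => w)) L x y, h0 y _ _ (by rw [List.length_map]; omega),
    zero_add]
  refine Finset.sum_eq_zero fun i _ => h0 _ _ _ ?_
  rw [List.length_map, List.length_eraseIdx_of_lt i.2]
  omega

/-- the leading difference -/
theorem dr2_lead [DecidableEq V] {n : ℕ}
    (Q : MultilinearMap ℝ (fun _ : Fin n => V) (V →ₗ[ℝ] ℝ))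
    (L : List (V × V)) (g h : V) (hL : L.length = n + 1) :
    dr2 (fun w v => Q (fun _ => w) v) L g h =
      ((L : Multiset (V × V)).map (fun p => SM (dg (la Q p.2))
        (((L : Multiset (V × V)).erase p).map Prod.fst))).sum := by
  have h0 : ∀ (b : V) (L' : List V) (x : V), L'.length = n + 1 →
      dr (fun w => Q (fun _ => w) b) L' x = 0 := fun b L' x hL' =>
    dr_diag n (la Q b) L' x (by omega)
  rw [dr2_expand (fun w => Q (fun _ => w)) L g h, h0 h _ _ (by rw [List.length_map, hL]), zero_add]
  have h1 : ∀ i : Fin L.length, dr (fun w => Q (fun _ => w) (L.get i).2)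
      ((L.eraseIdx i).map Prod.fst) (g + (L.get i).1) =
      dr (fun w => Q (fun _ => w) (L.get i).2) ((L.eraseIdx i).map Prod.fst) 0 := by
    intro i
    have h1 := h0 (L.get i).2 ((g + (L.get i).1) :: (L.eraseIdx i).map Prod.fst) 0 (by
      rw [List.length_cons, List.length_map, List.length_eraseIdx_of_lt i.2, hL]; omega)
    rw [dr_cons, zero_add] at h1
    linarith
  rw [Finset.sum_congr rfl fun i _ => h1 i]
  exact sum_eraseIdx L (fun p M => SM (dg (la Q p.2)) (M.map Prod.fst))

end B

end Pool.Agent.T9h89.QD
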