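import Pool.Agent.T9h57.QD.Spec
import Pool.Agent.T9h89.QD.Pol

/-!
# `EndQ`: the endgame (polarisation). Author: helper89.
-/

set_option autoImplicit false

namespace Pool.Agent.T9h89.QD

open Finset Pool.Agent.T9h57.QD

section A

/-- supported on the primes -/
def PS (s : Vr) : Prop := ∀ p, ¬ p.Prime → s p = 0

theorem PS.add {s t : Vr} (hs : PS s) (ht : PS t) : PS (s + t) := by
  intro p hp; rw [Finsupp.add_apply, hs p hp, ht p hp, add_zero]

theorem PS.sub {s t : Vr} (hs : PS s) (ht : PS t) : PS (s - t) := by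
  intro p hp; rw [Finsupp.sub_apply, hs p hp, ht p hp, sub_zero]

theorem ps_vn (n : ℕ) : PS (vn n) := by
  intro p hp
  simp [vn, Nat.factorization_eq_zero_of_not_prime n hp]

theorem vn_mul {a b : ℕ} (ha : a ≠ 0) (hb : b ≠ 0) : vn (a * b) = vn a + vn b := by
  ext p
  simp [vn, Nat.factorization_mul ha hb]

theorem vn_one : vn 1 = 0 := by
  ext p; simp [vn]

theorem vn_pow (a n : ℕ) : vn (a ^ n) = n • vn a := by
  ext p; simp [vn, Nat.factorization_pow]

theorem vn_prod {ι : Type} (s : Finset ι) (f : ι → ℕ) (hf : ∀ i ∈ s, f i ≠ 0) :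
    vn (∏ i ∈ s, f i) = ∑ i ∈ s, vn (f i) := by
  classical
  induction s using Finset.induction_on with
  | empty => rw [Finset.prod_empty, Finset.sum_empty, vn_one]
  | insert a s ha ih =>
    rw [Finset.prod_insert ha, Finset.sum_insert ha, vn_mul (hf a (mem_insert_self _ _))
      (Finset.prod_ne_zero_iff.2 fun i hi => hf i (mem_insert_of_mem hi)),
      ih fun i hi => hf i (mem_insert_of_mem hi)]

/-- primes -/
abbrev Zp : Type := {p : ℕ // p.Prime}

/-- basis vectors -/
noncomputable def ep (z : Zp) : Vr := Finsupp.single z.1 1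

theorem vn_prime (z : Zp) : vn z.1 = ep z := by
  ext p
  simp only [vn, ep, z.2.factorization, Finsupp.mapRange_single, Nat.cast_one]

theorem ep_ne (z : Zp) : ep z ≠ 0 := by
  unfold ep
  rw [Ne, Finsupp.single_eq_zero]
  exact one_ne_zero

theorem lin_zero (φ : Vr →ₗ[ℝ] ℝ) (h : ∀ z, φ (ep z) = 0) (s : Vr) (hs : PS s) : φ s = 0 := by
  have h1 : s = ∑ p ∈ s.support, Finsupp.single p (s p) := (Finsupp.sum_single s).symm
  rw [h1, map_sum]
  refine Finset.sum_eq_zero fun p hp => ?_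
  have hp' : p.Prime := by
    by_contra h
    exact Finsupp.mem_support_iff.1 hp (hs p h)
  have h2 : Finsupp.single p (s p) = (s p) • ep ⟨p, hp'⟩ := by simp [ep]
  rw [h2, map_smul, h, smul_zero]

end A

section B

/-- factor of `A` -/
def ft : Option Zp → Bool → ℕ
  | some p, b => if b then p.1 ^ 2 else p.1
  | none, _ => 1

/-- exponent -/
def et : Option Zp → Bool → ℕ
  | some _, _ => 0
  | none, b => if b then 1 else 2

/-- directions -/
noncomputable def zt (v : Zp) : Option Zp → Vr × Vr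
  | some p => (ep p, 0)
  | none => (ep v, ep v)

theorem ft_ne (t : Option Zp) (b : Bool) : ft t b ≠ 0 := by
  rcases t with _ | p
  · exact one_ne_zero
  · simp only [ft]
    split_ifs
    · exact pow_ne_zero _ p.2.ne_zero
    · exact p.2.ne_zero

theorem ft_dvd {q : ℕ} (hq : q.Prime) (t : Option Zp) (b : Bool) :
    q ∣ ft t b ↔ ∃ p, t = some p ∧ q = p.1 := by
  rcases t with _ | p
  · simp only [ft, Nat.dvd_one, reduceCtorEq, false_and, exists_false, iff_false]
    exact hq.one_lt.ne'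
  · simp only [ft, Option.some.injEq, exists_eq_left']
    split_ifs
    · rw [hq.prime.dvd_pow_iff_dvd two_ne_zero, Nat.prime_dvd_prime_iff_eq hq p.2]
    · rw [Nat.prime_dvd_prime_iff_eq hq p.2]

theorem rel1 (v : Zp) (t : Option Zp) (b : Bool) :
    (vn (ft t b) - et t b • vn v.1) - (vn (ft t false) - et t false • vn v.1) =
      if b then (zt v t).1 else 0 := by
  rcases t with _ | p
  · cases b
    · simp
    · simp only [ft, et, zt, if_true, Bool.false_eq_true, if_false, one_smul, two_smul, vn_prime]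
      abel
  · cases b
    · simp
    · simp only [ft, et, zt, if_true, Bool.false_eq_true, if_false, zero_smul, vn_pow, vn_prime,
        two_smul]
      abel

theorem rel2 (v : Zp) (t : Option Zp) (b : Bool) :
    et t false • vn v.1 - et t b • vn v.1 = if b then (zt v t).2 else 0 := by
  rcases t with _ | p
  · cases b
    · simp
    · simp only [et, zt, if_true, Bool.false_eq_true, if_false, one_smul, two_smul, vn_prime]
      abel
  · cases b
    · simp
    · simp [et, zt]

/-- typical points on a cube -/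
theorem cube {m e : ℕ} (Q : ∀ μ : Fin m, MultilinearMap ℝ (fun _ : Fin (μ : ℕ) => Vr) (Vr →ₗ[ℝ] ℝ))
    (P : ∀ (_ : Fin e) (μ : Fin m), MultilinearMap ℝ (fun _ : Fin (μ : ℕ) => Vr) ℝ)
    (hTP : ∀ (P₁ P₂ l : ℕ), P₁.Prime → P₂.Prime → l.Prime → P₁ ≠ P₂ → P₁ ≠ l → P₂ ≠ l → ∀ T : ℕ,
      ∃ w : ℕ, ∀ (I : Type) [Fintype I] (A ex : I → ℕ), Fintype.card I ≤ T →
      (∀ i, 1 ≤ ex i ∧ ex i ≤ T) →
      (∀ i, 0 < A i ∧ Nat.Coprime (A i) (P₁ * P₂ * l)) →
      (∀ i (p : ℕ), p.Prime → p ≤ w → p ∣ A i * (P₁ * P₂ * l)) →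
      (∀ i j, (A i).primeFactors = (A j).primeFactors) →
      ∃ a b c : ℕ, a ≠ 0 ∧ b ≠ 0 ∧ c ≠ 0 ∧ ∀ i,
        ∑ μ, Q μ (fun _ => vn a + vn (A i) - vn b - vn (l ^ ex i))
          (vn c - vn b - vn (l ^ ex i)) = 0 ∧
        ∀ k, ∑ μ, P k μ (fun _ => vn a + vn (A i) - vn b - vn (l ^ ex i)) = 0)
    (v : Zp) (L : List (Option Zp)) (hL : ∀ p, some p ∈ L → p ≠ v) (e0 : ℕ)
    (he : 1 ≤ e0 ∨ none ∈ L) :
    ∃ g h : Vr, ∀ ε : Fin L.length → Bool,
      PS (g + ∑ i, if ε i then (zt v (L.get i)).1 else 0) ∧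
      PS (h + ∑ i, if ε i then (zt v (L.get i)).2 else 0) ∧
      ∑ μ, Q μ (fun _ => g + ∑ i, if ε i then (zt v (L.get i)).1 else 0)
        (h + ∑ i, if ε i then (zt v (L.get i)).2 else 0) = 0 ∧
      ∀ k, ∑ μ, P k μ (fun _ => g + ∑ i, if ε i then (zt v (L.get i)).1 else 0) = 0 := by
  classical
  set occ : ℕ → Prop := fun q => q = v.1 ∨ ∃ p : Zp, some p ∈ L ∧ q = p.1 with hocc
  have hfin : Set.Finite {q | occ q} := by
    have h1 : {q | occ q} ⊆ {v.1} ∪ ((L.map fun t : Option Zp => (t.map Subtype.val).getD 0).toFinset :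
        Set ℕ) := by
      intro q hq
      rcases hq with h | ⟨p, hp, h⟩
      · exact .inl h
      · right
        rw [Finset.mem_coe, List.mem_toFinset, List.mem_map]
        exact ⟨some p, hp, by simp [h]⟩
    exact Set.Finite.subset ((Set.finite_singleton _).union (Finset.finite_toSet _)) h1
  obtain ⟨B, hB⟩ := hfin.bddAbove
  obtain ⟨P₁, hP1, hP1p⟩ := Nat.exists_infinite_primes (B + 1)
  obtain ⟨P₂, hP2, hP2p⟩ := Nat.exists_infinite_primes (P₁ + 1)
  have ho1 : ¬ occ P₁ := fun h => by have := hB h; omega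
  have ho2 : ¬ occ P₂ := fun h => by have := hB h; omega
  have hov : occ v.1 := .inl rfl
  obtain ⟨w, hw⟩ := hTP P₁ P₂ v.1 hP1p hP2p v.2 (by omega) (fun h => ho1 (h ▸ hov))
    (fun h => ho2 (h ▸ hov)) (2 ^ L.length + e0 + 2 * L.length)
  set S : Finset ℕ := (range (w + 1)).filter (fun q => q.Prime ∧ ¬ occ q ∧ q ≠ P₁ ∧ q ≠ P₂) with hS
  set A₀ : ℕ := ∏ q ∈ S, q with hA0
  have hA0n : A₀ ≠ 0 := Finset.prod_ne_zero_iff.2 fun q hq => (mem_filter.1 hq).2.1.ne_zero
  set A : (Fin L.length → Bool) → ℕ := fun ε => A₀ * ∏ i, ft (L.get i) (ε i) with hA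
  have hpn : ∀ ε : Fin L.length → Bool, ∏ i, ft (L.get i) (ε i) ≠ 0 := fun ε =>
    Finset.prod_ne_zero_iff.2 fun i _ => ft_ne _ _
  have hAn : ∀ ε, A ε ≠ 0 := fun ε => mul_ne_zero hA0n (hpn ε)
  set ex : (Fin L.length → Bool) → ℕ := fun ε => e0 + ∑ i, et (L.get i) (ε i) with hex
  have hdvd : ∀ (q : ℕ), q.Prime → ∀ ε, q ∣ A ε ↔ (q ∈ S ∨ ∃ p : Zp, some p ∈ L ∧ q = p.1) := by
    intro q hq ε
    rw [hA]
    simp only
    rw [hq.dvd_mul, hA0, hq.prime.dvd_finsetProd_iff, hq.prime.dvd_finsetProd_iff]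
    refine or_congr ⟨?_, fun h => ⟨q, h, dvd_rfl⟩⟩ ⟨?_, ?_⟩
    · rintro ⟨q', hq', hd⟩
      rwa [(Nat.prime_dvd_prime_iff_eq hq (mem_filter.1 hq').2.1).1 hd]
    · rintro ⟨i, _, hd⟩
      obtain ⟨p, hp, h⟩ := (ft_dvd hq _ _).1 hd
      exact ⟨p, hp ▸ List.get_mem L i, h⟩
    · rintro ⟨p, hp, h⟩
      obtain ⟨i, hi⟩ := List.mem_iff_get.1 hp
      exact ⟨i, mem_univ _, (ft_dvd hq _ _).2 ⟨p, hi, h⟩⟩
  have hw0 := hw (Fin L.length → Bool) A ex ?_ ?_ ?_ ?_ ?_
  · obtain ⟨a, b, c, _, _, _, hz⟩ := hw0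
    refine ⟨vn a + vn A₀ - vn b - e0 • vn v.1 +
        ∑ i, (vn (ft (L.get i) false) - et (L.get i) false • vn v.1),
      vn c - vn b - e0 • vn v.1 - ∑ i, et (L.get i) false • vn v.1, fun ε => ?_⟩
    have h1 : vn (A ε) = vn A₀ + ∑ i, vn (ft (L.get i) (ε i)) := by
      rw [hA]
      simp only
      rw [vn_mul hA0n (hpn ε), vn_prod _ _ fun i _ => ft_ne _ _]
    have h2 : vn (v.1 ^ ex ε) = e0 • vn v.1 + ∑ i, et (L.get i) (ε i) • vn v.1 := by
      rw [vn_pow, hex]
      simp only
      rw [add_smul, Finset.sum_smul]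
    have h3 : vn a + vn A₀ - vn b - e0 • vn v.1 +
        ∑ i, (vn (ft (L.get i) false) - et (L.get i) false • vn v.1) +
        ∑ i, (if ε i then (zt v (L.get i)).1 else 0) =
        vn a + vn (A ε) - vn b - vn (v.1 ^ ex ε) := by
      rw [Finset.sum_congr rfl fun i _ => (rel1 v (L.get i) (ε i)).symm, h1, h2]
      simp only [Finset.sum_sub_distrib]
      abel
    have h4 : vn c - vn b - e0 • vn v.1 - ∑ i, et (L.get i) false • vn v.1 +
        ∑ i, (if ε i then (zt v (L.get i)).2 else 0) = vn c - vn b - vn (v.1 ^ ex ε) := by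
      rw [Finset.sum_congr rfl fun i _ => (rel2 v (L.get i) (ε i)).symm, h2]
      simp only [Finset.sum_sub_distrib]
      abel
    rw [h3, h4]
    exact ⟨(((ps_vn _).add (ps_vn _)).sub (ps_vn _)).sub (ps_vn _),
      ((ps_vn _).sub (ps_vn _)).sub (ps_vn _), hz ε⟩
  · rw [Fintype.card_fun, Fintype.card_bool, Fintype.card_fin]
    omega
  · intro ε
    constructor
    · rcases he with he | he
      · exact he.trans (Nat.le_add_right _ _)
      · obtain ⟨i, hi⟩ := List.mem_iff_get.1 he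
        have h1 : et (L.get i) (ε i) ≤ ∑ i, et (L.get i) (ε i) :=
          Finset.single_le_sum (f := fun i => et (L.get i) (ε i)) (fun _ _ => Nat.zero_le _)
            (mem_univ i)
        have h2 : 1 ≤ et (L.get i) (ε i) := by
          rw [hi]
          simp only [et]
          split_ifs <;> norm_num
        show 1 ≤ e0 + ∑ i, et (L.get i) (ε i)
        omega
    · have h1 : ∑ i, et (L.get i) (ε i) ≤ ∑ _i : Fin L.length, 2 := by
        refine Finset.sum_le_sum fun i _ => ?_
        rcases L.get i with _ | p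
        · simp only [et]
          split_ifs <;> norm_num
        · simp only [et]; norm_num
      rw [Finset.sum_const, Finset.card_univ, Fintype.card_fin, smul_eq_mul] at h1
      show e0 + ∑ i, et (L.get i) (ε i) ≤ _
      have := Nat.zero_le (2 ^ L.length)
      omega
  · intro ε
    refine ⟨Nat.pos_of_ne_zero (hAn ε), ?_⟩
    have h1 : ∀ q : ℕ, q.Prime → (¬ (q ∈ S ∨ ∃ p : Zp, some p ∈ L ∧ q = p.1)) →
        Nat.Coprime (A ε) q := fun q hq h => by
      rw [Nat.coprime_comm, hq.coprime_iff_not_dvd, hdvd q hq]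
      exact h
    have h2 : ∀ q ∈ S, ¬ occ q ∧ q ≠ P₁ ∧ q ≠ P₂ := fun q hq => (mem_filter.1 hq).2.2
    refine Nat.Coprime.mul_right (Nat.Coprime.mul_right (h1 _ hP1p ?_) (h1 _ hP2p ?_)) (h1 _ v.2 ?_)
    · rintro (h | h)
      · exact (h2 _ h).2.1 rfl
      · exact ho1 (.inr h)
    · rintro (h | h)
      · exact (h2 _ h).2.2 rfl
      · exact ho2 (.inr h)
    · rintro (h | ⟨p, hp, h⟩)
      · exact (h2 _ h).1 hov
      · exact hL p hp (Subtype.ext h.symm)
  · intro ε q hq hqw
    by_cases h1 : q ∣ A ε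
    · exact Dvd.dvd.mul_right h1 _
    · rw [hdvd q hq] at h1
      push Not at h1
      have h2 : occ q ∨ q = P₁ ∨ q = P₂ := by
        by_contra hcon
        push Not at hcon
        exact h1.1 (mem_filter.2 ⟨mem_range.2 (by omega), hq, hcon.1, hcon.2.1, hcon.2.2⟩)
      refine Dvd.dvd.mul_left ?_ _
      rcases h2 with (h2 | ⟨p, hp, h2⟩) | h2 | h2
      · rw [h2]; exact dvd_mul_left _ _
      · exact absurd h2 (h1.2 p hp)
      · rw [h2, mul_assoc]; exact dvd_mul_right _ _
      · rw [h2, mul_comm P₁, mul_assoc]; exact dvd_mul_right _ _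
  · intro ε ε'
    ext q
    rw [Nat.mem_primeFactors, Nat.mem_primeFactors]
    constructor
    · rintro ⟨hq, hd, _⟩
      exact ⟨hq, (hdvd q hq ε').2 ((hdvd q hq ε).1 hd), hAn _⟩
    · rintro ⟨hq, hd, _⟩
      exact ⟨hq, (hdvd q hq ε).2 ((hdvd q hq ε').1 hd), hAn _⟩

end B

section C

theorem SM_zero {V : Type} [AddCommGroup V] (M : Multiset V) : SM (fun _ => (0 : ℝ)) M = 0 := by
  induction M using Quot.inductionOn with
  | _ L => exact dr_zero L 0

/-- the step for `Q` -/
theorem stepQ {m : ℕ} (Q : ∀ μ : Fin m, MultilinearMap ℝ (fun _ : Fin (μ : ℕ) => Vr) (Vr →ₗ[ℝ] ℝ))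
    (μ : Fin m) (hI : ∀ ν : Fin m, μ < ν → ∀ s v : Vr, PS s → PS v → Q ν (fun _ => s) v = 0)
    (M : Multiset Zp) (v : Zp) (c : ℕ) (hM : M.card + c = μ) (g h : Vr)
    (L : List (Option Zp)) (hL : L = M.toList.map some ++ List.replicate (c + 1) none)
    (hc : ∀ ε : Fin L.length → Bool,
      PS (g + ∑ i, if ε i then (zt v (L.get i)).1 else 0) ∧
      PS (h + ∑ i, if ε i then (zt v (L.get i)).2 else 0) ∧
      ∑ μ, Q μ (fun _ => g + ∑ i, if ε i then (zt v (L.get i)).1 else 0)
        (h + ∑ i, if ε i then (zt v (L.get i)).2 else 0) = 0) :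
    SM (dg (la (Q μ) (ep v))) (M.map ep + Multiset.replicate c (ep v)) = 0 := by
  classical
  have hlen : L.length = μ + 1 := by
    rw [hL, List.length_append, List.length_map, Multiset.length_toList, List.length_replicate]
    omega
  have h1 : dr2 (fun w u => ∑ ν, Q ν (fun _ => w) u) (L.map (zt v)) g h = 0 :=
    dr2_cube (zt v) _ L g h fun ε => (hc ε).2.2
  rw [dr2_sum, Finset.sum_eq_single μ] at h1
  · rw [dr2_lead (Q μ) _ g h (by rw [List.length_map, hlen])] at h1
    have h2 : ((L.map (zt v) : List (Vr × Vr)) : Multiset (Vr × Vr)) =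
        M.map (fun p => (ep p, (0 : Vr))) + Multiset.replicate (c + 1) (ep v, ep v) := by
      rw [hL, List.map_append, List.map_map, ← Multiset.coe_add, List.map_replicate]
      congr 1
      conv_rhs => rw [← Multiset.coe_toList M]
      rfl
    have h3 : (M.map (fun p => (ep p, (0 : Vr))) +
        Multiset.replicate (c + 1) (ep v, ep v)).erase (ep v, ep v) =
        M.map (fun p => (ep p, (0 : Vr))) + Multiset.replicate c (ep v, ep v) := by
      rw [Multiset.replicate_succ, Multiset.add_cons, Multiset.erase_cons_head]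
    rw [h2, Multiset.map_add, Multiset.sum_add, Multiset.map_replicate, Multiset.sum_replicate,
      h3] at h1
    have h4 : ((M.map (fun p => (ep p, (0 : Vr)))).map (fun p : Vr × Vr => SM (dg (la (Q μ) p.2))
        (((M.map (fun p => (ep p, (0 : Vr))) +
          Multiset.replicate (c + 1) (ep v, ep v)).erase p).map Prod.fst))).sum = 0 := by
      refine Multiset.sum_eq_zero fun x hx => ?_
      obtain ⟨p, hp, rfl⟩ := Multiset.mem_map.1 hx
      obtain ⟨q, _, rfl⟩ := Multiset.mem_map.1 hp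
      have h5 : dg (la (Q μ) (0 : Vr)) = fun _ => (0 : ℝ) := by
        funext w
        rw [dg_la, map_zero]
      show SM (dg (la (Q μ) (0 : Vr))) _ = 0
      rw [h5]
      exact SM_zero _
    rw [h4, zero_add, nsmul_eq_mul, Multiset.map_add, Multiset.map_replicate,
      Multiset.map_map] at h1
    exact (mul_eq_zero.1 h1).resolve_left (by exact_mod_cast c.succ_ne_zero)
  · intro ν _ hν
    rcases lt_or_gt_of_ne hν with hlt | hlt
    · exact dr2_high (Q ν) _ g h (by
        have : (ν : ℕ) < μ := hlt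
        rw [List.length_map, hlen]; omega)
    · exact dr2_cube (zt v) _ L g h fun ε => hI ν hlt _ _ (hc ε).1 (hc ε).2.1
  · intro h; exact absurd (mem_univ _) h

/-- the step for `P` -/
theorem stepP {m : ℕ} (P : ∀ μ : Fin m, MultilinearMap ℝ (fun _ : Fin (μ : ℕ) => Vr) ℝ)
    (μ : Fin m) (hI : ∀ ν : Fin m, μ < ν → ∀ s : Vr, PS s → P ν (fun _ => s) = 0)
    (M : Multiset Zp) (v : Zp) (hM : M.card = μ) (g : Vr)
    (L : List (Option Zp)) (hL : L = M.toList.map some)
    (hc : ∀ ε : Fin L.length → Bool,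
      PS (g + ∑ i, if ε i then (zt v (L.get i)).1 else 0) ∧
      ∑ μ, P μ (fun _ => g + ∑ i, if ε i then (zt v (L.get i)).1 else 0) = 0) :
    SM (dg (P μ)) (M.map ep) = 0 := by
  classical
  have hlen : L.length = μ := by
    rw [hL, List.length_map, Multiset.length_toList, hM]
  have h1 : dr (fun w => ∑ ν, P ν (fun _ => w)) (L.map fun t => (zt v t).1) g = 0 :=
    dr_cube (fun t => (zt v t).1) _ L g fun ε => (hc ε).2
  rw [dr_sum, Finset.sum_eq_single μ] at h1
  · have h2 : M.map ep = ((L.map fun t => (zt v t).1 : List Vr) : Multiset Vr) := by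
      rw [hL, List.map_map]
      conv_lhs => rw [← Multiset.coe_toList M]
      rfl
    have h3 := dr_diag μ (P μ) (g :: L.map fun t => (zt v t).1) 0 (by
      rw [List.length_cons, List.length_map, hlen]; omega)
    rw [dr_cons, zero_add] at h3
    have h4 : dr (dg (P μ)) (L.map fun t => (zt v t).1) g = 0 := h1
    rw [h2, SM_coe]
    linarith
  · intro ν _ hν
    rcases lt_or_gt_of_ne hν with hlt | hlt
    · exact dr_diag ν (P ν) _ g (by
        have : (ν : ℕ) < μ := hlt
        rw [List.length_map, hlen]; omega)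
    · exact dr_cube (fun t => (zt v t).1) _ L g fun ε => hI ν hlt _ (hc ε).1
  · intro h; exact absurd (mem_univ _) h

theorem down {m : ℕ} (C : Fin m → Prop) (h : ∀ μ, (∀ ν, μ < ν → C ν) → C μ) : ∀ μ, C μ := by
  have h1 : ∀ (d : ℕ) (μ : Fin m), m ≤ (μ : ℕ) + d → C μ := by
    intro d
    induction d with
    | zero => intro μ hμ; have := μ.2; omega
    | succ d ih =>
      intro μ hμ
      exact h μ fun ν hν => ih ν (by have : (μ : ℕ) < ν := hν; omega)
  exact fun μ => h1 m μ (Nat.le_add_left _ _)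

end C

theorem endQ : EndQ := by
  classical
  intro hTPQ m e Q P ψ hψ hli hSt
  have hTP := hTPQ m e Q P ψ hψ hli hSt
  have hZ : ∀ φ : Vr →ₗ[ℝ] ℝ, (∀ z : Zp, φ (ep z) = 0) → ∀ w ∈ {s | PS s}, φ w = 0 :=
    fun φ hφ w hw => lin_zero φ hφ w hw
  constructor
  · refine down _ fun μ hI => ?_
    have h1 : ∀ (v : Zp) (s : Vr), PS s → Q μ (fun _ => s) (ep v) = 0 := by
      intro v s hs
      refine all_zero (ep : Zp → Vr) {s | PS s} hZ (la (Q μ) (ep v)) (fun M hM => ?_) s hs
      have h2 : M = M.filter (fun z => ¬ v = z) + Multiset.replicate (M.count v) v := by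
        rw [add_comm, ← Multiset.filter_eq, Multiset.filter_add_not]
      have h3 : (M.filter (fun z => ¬ v = z)).card + M.count v = μ := by
        conv_rhs => rw [← hM, h2]
        rw [Multiset.card_add, Multiset.card_replicate]
      obtain ⟨g, h, hc⟩ := cube Q P hTP v ((M.filter (fun z => ¬ v = z)).toList.map some ++
        List.replicate (M.count v + 1) none) (by
          intro p hp hpv
          rw [List.mem_append] at hp
          rcases hp with hp | hp
          · obtain ⟨q, hq, hqe⟩ := List.mem_map.1 hp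
            rw [Multiset.mem_toList, Multiset.mem_filter] at hq
            exact hq.2 (hpv.symm.trans (Option.some.inj hqe).symm)
          · exact absurd (List.eq_of_mem_replicate hp) (by simp)) 0
        (.inr (by rw [List.mem_append]; right; simp))
      have h4 := stepQ Q μ (fun ν hν s v hs hv => hI ν hν s v hs hv) _ v (M.count v) h3 g h _ rfl
        fun ε => ⟨(hc ε).1, (hc ε).2.1, (hc ε).2.2.1⟩
      rw [h2, Multiset.map_add, Multiset.map_replicate]
      exact h4
    intro s v hs hv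
    exact lin_zero (Q μ fun _ => s) (fun z => h1 z s hs) v hv
  · intro k
    refine down _ fun μ hI => ?_
    intro s hs
    refine all_zero (ep : Zp → Vr) {s | PS s} hZ (P k μ) (fun M hM => ?_) s hs
    obtain ⟨v, hv⟩ : ∃ v : Zp, v ∉ M := by
      have : Infinite Zp := Nat.infinite_setOfPred_prime.to_subtype
      obtain ⟨v, hv⟩ := Infinite.exists_notMem_finset M.toFinset
      exact ⟨v, fun h => hv (Multiset.mem_toFinset.2 h)⟩
    obtain ⟨g, h, hc⟩ := cube Q P hTP v (M.toList.map some) (by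
        intro p hp hpv
        obtain ⟨q, hq, hqe⟩ := List.mem_map.1 hp
        rw [Multiset.mem_toList] at hq
        have : q = v := (Option.some.inj hqe).trans hpv
        exact hv (this ▸ hq)) 1 (.inl le_rfl)
    exact stepP (P k) μ (fun ν hν s hs => hI ν hν s hs) M v hM g _ rfl
      fun ε => ⟨(hc ε).1, (hc ε).2.2.2 k⟩

end Pool.Agent.T9h89.QD
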